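import Mathlib
import Pool.Agent.W262.RK.Stm

/-!
# RK-DESC, part 0: squares and valuations
-/

namespace Pool.Agent.W599.RK

open Finset Pool.Agent.W262.RK

lemma val_sqfree (a q : ℕ) [Fact q.Prime] (ha : Squarefree a) :
    padicValRat q (a : ℚ) = if q ∣ a then 1 else 0 := by
  have ha0 : a ≠ 0 := ha.ne_zero
  have hq : q.Prime := Fact.out
  rw [padicValRat.of_nat]
  split_ifs with h
  · have h1 : 1 ≤ padicValNat q a := by
      rw [← padicValNat_dvd_iff_le ha0]; simpa using h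
    have h2 : ¬ 2 ≤ padicValNat q a := by
      rw [← padicValNat_dvd_iff_le ha0]
      intro h3
      rw [pow_two] at h3
      exact hq.one_lt.ne' (Nat.isUnit_iff.mp (ha q h3))
    have : padicValNat q a = 1 := by omega
    exact_mod_cast this
  · rw [padicValNat.eq_zero_of_not_dvd h]; rfl

/-- a positive rational number with even valuations is a square -/
lemma isSquare_of_even (b : ℚ) (hb : 0 < b)
    (h : ∀ q : ℕ, q.Prime → Even (padicValRat q b)) : IsSquare b := by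
  have hnum : 0 < b.num := Rat.num_pos.mpr hb
  set n : ℕ := b.num.natAbs * b.den with hn
  have hden0 : (b.den : ℚ) ≠ 0 := by exact_mod_cast b.den_nz
  have hbn : b * (b.den : ℚ) ^ 2 = n := by
    have h1 : b * b.den = b.num := Rat.mul_den_eq_num b
    have h2 : ((b.num.natAbs : ℕ) : ℚ) = b.num := by
      rw [← Int.cast_natCast (R := ℚ), Int.natAbs_of_nonneg hnum.le]
    rw [hn, Nat.cast_mul, h2, pow_two, ← mul_assoc, h1]
  have hn0 : n ≠ 0 := by
    rw [hn]
    exact mul_ne_zero (by omega) b.den_nz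
  obtain ⟨a, k, hak, ha⟩ := Nat.sq_mul_squarefree n
  have hk0 : k ≠ 0 := by
    rintro rfl; simp at hak; exact hn0 hak.symm
  have ha0 : a ≠ 0 := ha.ne_zero
  have ha1 : a = 1 := by
    by_contra hne
    obtain ⟨q, hq, hqa⟩ := Nat.exists_prime_and_dvd hne
    have : Fact q.Prime := ⟨hq⟩
    have hk0' : (k : ℚ) ≠ 0 := by exact_mod_cast hk0
    have ha0' : (a : ℚ) ≠ 0 := by exact_mod_cast ha0
    have h1 : padicValRat q (n : ℚ) = padicValRat q b + 2 * padicValRat q (b.den : ℚ) := by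
      rw [← hbn, padicValRat.mul hb.ne' (pow_ne_zero _ hden0), padicValRat.pow]
      push_cast; ring
    have h2 : padicValRat q (n : ℚ) = 2 * padicValRat q (k : ℚ) + padicValRat q (a : ℚ) := by
      rw [← hak]
      push_cast
      rw [padicValRat.mul (pow_ne_zero _ hk0') ha0', padicValRat.pow]
      push_cast; ring
    have h3 : padicValRat q (a : ℚ) = 1 := by rw [val_sqfree a q ha, if_pos hqa]
    have h4 := h q hq
    rw [h3] at h2
    rcases h4 with ⟨m, hm⟩
    omega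
  rw [ha1, mul_one] at hak
  refine ⟨(k : ℚ) / b.den, ?_⟩
  have h5 : (n : ℚ) = (k : ℚ) ^ 2 := by rw [← hak]; push_cast; ring
  have h6 : b = (k : ℚ) ^ 2 / (b.den : ℚ) ^ 2 := by
    rw [← h5, ← hbn]; field_simp
  calc b = (k : ℚ) ^ 2 / (b.den : ℚ) ^ 2 := h6
    _ = _ := by ring

/-- an integer prime to `p` that is a square in `ℚ_p` has Jacobi symbol `1` -/
lemma jac_of_isSquare (p : ℕ) [Fact p.Prime] (a : ℤ) (hpa : ¬ (p : ℤ) ∣ a)
    (h : IsSquare ((a : ℚ) : ℚ_[p])) : jacobiSym a p = 1 := by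
  obtain ⟨r, hr⟩ := h
  have hcast : ((a : ℚ) : ℚ_[p]) = (a : ℚ_[p]) := by norm_cast
  rw [hcast] at hr
  have hna : ‖(a : ℚ_[p])‖ = 1 := by
    have h1 : ‖(a : ℚ_[p])‖ ≤ 1 := Padic.norm_int_le_one a
    have h2 : ¬ ‖(a : ℚ_[p])‖ < 1 := by
      rw [Padic.norm_intCast_lt_one_iff]; exact hpa
    exact le_antisymm h1 (not_lt.mp h2)
  have hnr : ‖r‖ = 1 := by
    have h1 : ‖r‖ * ‖r‖ = 1 := by rw [← norm_mul, ← hr, hna]
    nlinarith [norm_nonneg r]
  set z : ℤ_[p] := ⟨r, hnr.le⟩ with hz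
  have hzz : z * z = (a : ℤ_[p]) := by
    apply Subtype.ext
    rw [PadicInt.coe_mul, PadicInt.coe_intCast]
    exact hr.symm
  have ha0 : (a : ZMod p) ≠ 0 := by
    rw [Ne, ZMod.intCast_zmod_eq_zero_iff_dvd]; exact hpa
  rw [← jacobiSym.legendreSym.to_jacobiSym, legendreSym.eq_one_iff p ha0]
  refine ⟨PadicInt.toZMod z, ?_⟩
  rw [← map_mul, hzz, map_intCast]

end Pool.Agent.W599.RK
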