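import Mathlib
import Pool.Agent.W262.RK.Stm
import Pool.Agent.W599.RK.Desc0

/-!
# RK-DESC, part 1: local conditions at the special primes, uniformly in the class
-/

namespace Pool.Agent.W599.RK

open Finset Pool.Agent.W262.RK

/-- the factor of class `c` -/
def w (A B : ℤ) (c : Fin 3) (x : ℚ) : ℚ := if c = 0 then x - B else if c = 1 then x - A else x

/-- the local twist of class `c` -/
def bt (A B : ℤ) (c : Fin 3) : ℤ := if c = 0 then -B else if c = 1 then -A else A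

/-- the condition at a special prime -/
def LC (A B : ℤ) (c : Fin 3) (p : ℕ) : Prop :=
  if c = 0 then (p : ℤ) ∣ A ∧ ¬ (p : ℤ) ^ 2 ∣ A ∧ ¬ (p : ℤ) ∣ B
  else if c = 1 then (p : ℤ) ∣ B ∧ ¬ (p : ℤ) ^ 2 ∣ B ∧ ¬ (p : ℤ) ∣ A
  else (p : ℤ) ∣ A - B ∧ ¬ (p : ℤ) ^ 2 ∣ A - B ∧ ¬ (p : ℤ) ∣ A

@[simp] lemma w_zero (A B : ℤ) (x : ℚ) : w A B 0 x = x - B := rfl
@[simp] lemma w_one (A B : ℤ) (x : ℚ) : w A B 1 x = x - A := rfl
@[simp] lemma w_two (A B : ℤ) (x : ℚ) : w A B 2 x = x := rfl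
@[simp] lemma bt_zero (A B : ℤ) : bt A B 0 = -B := rfl
@[simp] lemma bt_one (A B : ℤ) : bt A B 1 = -A := rfl
@[simp] lemma bt_two (A B : ℤ) : bt A B 2 = A := rfl

lemma fin3 (c : Fin 3) : c = 0 ∨ c = 1 ∨ c = 2 := by
  fin_cases c <;> simp

/-- LOC for all classes at once -/
lemma locu (h1 : LOC) (A B : ℤ) (c : Fin 3) (p : ℕ) [Fact p.Prime] (hp2 : p ≠ 2)
    (hc : LC A B c p) (x y : ℚ) (hy : y ≠ 0) (h : y ^ 2 = x * (x - A) * (x - B)) :
    Even (padicValRat p (w A B c x)) ∧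
    (∀ c' c'' : Fin 3, c' ≠ c → c'' ≠ c →
      (Even (padicValRat p (w A B c' x)) ↔ Even (padicValRat p (w A B c'' x)))) ∧
    (∀ c' : Fin 3, c' ≠ c → (Even (padicValRat p (w A B c' x)) →
      IsSquare ((w A B c x : ℚ) : ℚ_[p])) ∧ (¬ Even (padicValRat p (w A B c' x)) →
      IsSquare (((bt A B c : ℚ) * w A B c x : ℚ) : ℚ_[p]))) := by
  rcases fin3 c with rfl | rfl | rfl
  · obtain ⟨ha, hb, hd⟩ : (p : ℤ) ∣ A ∧ ¬ (p : ℤ) ^ 2 ∣ A ∧ ¬ (p : ℤ) ∣ B := hc
    obtain ⟨k1, k2, k3, k4⟩ := h1 p A B hp2 ha hb hd x y hy h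
    have key : ∀ c' : Fin 3, c' ≠ 0 →
        (Even (padicValRat p (w A B c' x)) ↔ Even (padicValRat p x)) := by
      intro c' hc'
      rcases fin3 c' with rfl | rfl | rfl
      · exact absurd rfl hc'
      · rw [w_one]; exact k2.symm
      · rw [w_two]
    refine ⟨by rw [w_zero]; exact k1, fun c' c'' h' h'' => (key c' h').trans (key c'' h'').symm,
      fun c' h' => ⟨fun he => ?_, fun he => ?_⟩⟩
    · rw [w_zero]; exact k3 ((key c' h').mp he)
    · have := k4 (fun h5 => he ((key c' h').mpr h5))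
      rw [w_zero, bt_zero]
      push_cast at this ⊢
      exact this
  · obtain ⟨ha, hb, hd⟩ : (p : ℤ) ∣ B ∧ ¬ (p : ℤ) ^ 2 ∣ B ∧ ¬ (p : ℤ) ∣ A := hc
    obtain ⟨k1, k2, k3, k4⟩ := h1 p B A hp2 ha hb hd x y hy (by rw [h]; ring)
    have key : ∀ c' : Fin 3, c' ≠ 1 →
        (Even (padicValRat p (w A B c' x)) ↔ Even (padicValRat p x)) := by
      intro c' hc'
      rcases fin3 c' with rfl | rfl | rfl
      · rw [w_zero]; exact k2.symm
      · exact absurd rfl hc'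
      · rw [w_two]
    refine ⟨by rw [w_one]; exact k1, fun c' c'' h' h'' => (key c' h').trans (key c'' h'').symm,
      fun c' h' => ⟨fun he => ?_, fun he => ?_⟩⟩
    · rw [w_one]; exact k3 ((key c' h').mp he)
    · have := k4 (fun h5 => he ((key c' h').mpr h5))
      rw [w_one, bt_one]
      push_cast at this ⊢
      exact this
  · obtain ⟨ha, hb, hd⟩ : (p : ℤ) ∣ A - B ∧ ¬ (p : ℤ) ^ 2 ∣ A - B ∧ ¬ (p : ℤ) ∣ A := hc
    have e1 : (x - A : ℚ) - ((-A : ℤ) : ℚ) = x := by push_cast; ring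
    have e2 : (x - A : ℚ) - ((B - A : ℤ) : ℚ) = x - B := by push_cast; ring
    have ha' : (p : ℤ) ∣ B - A := by rw [← dvd_neg]; simpa using ha
    have hb' : ¬ (p : ℤ) ^ 2 ∣ B - A := by
      intro h5; apply hb; rw [← dvd_neg]; simpa using h5
    have hd' : ¬ (p : ℤ) ∣ -A := by rwa [dvd_neg]
    obtain ⟨k1, k2, k3, k4⟩ := h1 p (B - A) (-A) hp2 ha' hb' hd' (x - A) y hy
      (by rw [e1, e2, h]; ring)
    rw [e1] at k1 k3 k4
    rw [e2] at k2
    have key : ∀ c' : Fin 3, c' ≠ 2 →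
        (Even (padicValRat p (w A B c' x)) ↔ Even (padicValRat p (x - A))) := by
      intro c' hc'
      rcases fin3 c' with rfl | rfl | rfl
      · rw [w_zero]; exact k2.symm
      · rw [w_one]
      · exact absurd rfl hc'
    refine ⟨by rw [w_two]; exact k1, fun c' c'' h' h'' => (key c' h').trans (key c'' h'').symm,
      fun c' h' => ⟨fun he => ?_, fun he => ?_⟩⟩
    · rw [w_two]; exact k3 ((key c' h').mp he)
    · have := k4 (fun h5 => he ((key c' h').mpr h5))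
      rw [w_two, bt_two]
      push_cast at this ⊢
      rw [neg_neg] at this
      exact this

/-- GOOD for all classes at once -/
lemma goodu (h2 : GOOD) (A B : ℤ) (c : Fin 3) (p : ℕ) [Fact p.Prime]
    (hc : ¬ (p : ℤ) ∣ 2 * A * B * (A - B)) (x y : ℚ) (hy : y ≠ 0)
    (h : y ^ 2 = x * (x - A) * (x - B)) : Even (padicValRat p (w A B c x)) := by
  obtain ⟨k1, k2, k3⟩ := h2 p A B hc x y hy h
  rcases fin3 c with rfl | rfl | rfl
  · exact k3
  · exact k2
  · exact k1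

lemma w_ne_zero {A B : ℤ} {x y : ℚ} (hy : y ≠ 0) (h : y ^ 2 = x * (x - A) * (x - B))
    (c : Fin 3) : w A B c x ≠ 0 := by
  have h0 : x * (x - A) * (x - B) ≠ 0 := by rw [← h]; exact pow_ne_zero 2 hy
  rcases fin3 c with rfl | rfl | rfl
  · exact right_ne_zero_of_mul h0
  · exact right_ne_zero_of_mul (left_ne_zero_of_mul h0)
  · exact left_ne_zero_of_mul (left_ne_zero_of_mul h0)

/-- parity of a product of two valuations -/
lemma even_mul_iff (p : ℕ) [Fact p.Prime] {a b : ℚ} (ha : a ≠ 0) (hb : b ≠ 0) :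
    Even (padicValRat p (a * b)) ↔ (Even (padicValRat p a) ↔ Even (padicValRat p b)) := by
  rw [padicValRat.mul ha hb, Int.even_add]

/-- the valuation of the third factor -/
lemma third (p : ℕ) [Fact p.Prime] {A B : ℤ} {x y : ℚ} (hy : y ≠ 0)
    (h : y ^ 2 = x * (x - A) * (x - B)) :
    Even (padicValRat p (w A B 0 x)) ↔
      (Even (padicValRat p (w A B 2 x)) ↔ Even (padicValRat p (w A B 1 x))) := by
  have h0 := w_ne_zero hy h 0
  have h1 := w_ne_zero hy h 1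
  have h2 := w_ne_zero hy h 2
  have h3 : Even (padicValRat p (w A B 2 x * w A B 1 x * w A B 0 x)) := by
    rw [w_two, w_one, w_zero, ← h, padicValRat.pow]
    exact even_two_mul _
  rw [even_mul_iff p (mul_ne_zero h2 h1) h0, even_mul_iff p h2 h1] at h3
  exact h3.symm

end Pool.Agent.W599.RK
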