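import Mathlib
import Pool.Agent.W262.RK.Stm
import Pool.Agent.W599.RK.Desc1

/-!
# RK-DESC, part 2: two points with the same outer data
-/

namespace Pool.Agent.W599.RK

open Finset Pool.Agent.W262.RK

section

variable {J : Type} [Fintype J] [DecidableEq J]

/-- the class used for the parity at the primes dividing `s j` -/
def c0 (cls : J → Fin 3) (j : J) : Fin 3 := if cls j = 2 then 1 else 2

omit [Fintype J] [DecidableEq J] in
lemma c0_ne (cls : J → Fin 3) (j : J) : c0 cls j ≠ cls j := by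
  unfold c0
  split_ifs with h
  · rw [h]; decide
  · exact fun h' => h h'.symm

/-- the comparison of two points `(x, y)`, `(x', y')` of the curve with `y, y' ≠ 0` -/
structure Cmp (cls : J → Fin 3) (s : J → ℕ) (A B : ℤ) (x y x' y' : ℚ) (τ : J → ℕ) : Prop where
  hy : y ≠ 0
  h : y ^ 2 = x * (x - A) * (x - B)
  hy' : y' ≠ 0
  h' : y' ^ 2 = x' * (x' - A) * (x' - B)
  dvd : ∀ j, τ j ∣ s j
  mem : ∀ j, ∀ q : ℕ, q.Prime → (q ∣ τ j ↔ (q ∣ s j ∧
    ¬ (Even (padicValRat q (w A B (c0 cls j) x)) ↔ Even (padicValRat q (w A B (c0 cls j) x')))))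
  out : ∀ q : ℕ, q.Prime → (q : ℤ) ∣ 2 * A * B * (A - B) → (∀ j, ¬ q ∣ s j) →
    (Even (padicValRat q (w A B 2 x)) ↔ Even (padicValRat q (w A B 2 x'))) ∧
    (Even (padicValRat q (w A B 1 x)) ↔ Even (padicValRat q (w A B 1 x')))
  sgn2 : 0 < w A B 2 x ↔ 0 < w A B 2 x'
  sgn1 : 0 < w A B 1 x ↔ 0 < w A B 1 x'

/-- the data of the descent -/
structure Dat (cls : J → Fin 3) (κ : J → ℤ) (s : J → ℕ) (A B : ℤ) : Prop where
  odd : ∀ j, Odd (s j)
  sqf : ∀ j, Squarefree (s j)
  cop : ∀ i j, i ≠ j → (s i).Coprime (s j)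
  lc : ∀ j, ∀ p : ℕ, p.Prime → p ∣ s j → LC A B (cls j) p
  jac : ∀ j, ∀ p : ℕ, p.Prime → p ∣ s j → jacobiSym (κ j * bt A B (cls j)) p = 1

variable {cls : J → Fin 3} {κ : J → ℤ} {s : J → ℕ} {A B : ℤ} {x y x' y' : ℚ} {τ : J → ℕ}

/-- the product of the parts of the other classes -/
def UU (cls : J → Fin 3) (τ : J → ℕ) (c : Fin 3) : ℕ := ∏ l ∈ univ.filter (fun l => cls l ≠ c), τ l

lemma dvd_UU_iff {q : ℕ} (hq : q.Prime) (c : Fin 3) :
    q ∣ UU cls τ c ↔ ∃ l, cls l ≠ c ∧ q ∣ τ l := by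
  unfold UU
  rw [Prime.dvd_finsetProd_iff hq.prime]
  simp

lemma UU_sqf (hd : Dat cls κ s A B) (hτ : ∀ j, τ j ∣ s j) (c : Fin 3) :
    Squarefree (UU cls τ c) := by
  unfold UU
  apply Finset.squarefree_prod_of_pairwise_isCoprime
  · intro i _ j _ hij
    show IsRelPrime (τ i) (τ j)
    rw [← Nat.coprime_iff_isRelPrime]
    exact Nat.Coprime.coprime_dvd_left (hτ i) (Nat.Coprime.coprime_dvd_right (hτ j)
      (hd.cop i j hij))
  · intro i _
    exact (hd.sqf i).squarefree_of_dvd (hτ i)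

lemma ne_two_of_dvd (hd : Dat cls κ s A B) {j : J} {p : ℕ} (hp : p ∣ s j) : p ≠ 2 := by
  rintro rfl
  have h1 := hd.odd j
  rw [← Nat.not_even_iff_odd] at h1
  exact h1 (even_iff_two_dvd.mpr hp)

lemma uniq (hd : Dat cls κ s A B) {p : ℕ} (hp : p.Prime) {i j : J} (hi : p ∣ s i) (hj : p ∣ s j) :
    i = j := by
  by_contra hne
  have h := hd.cop i j hne
  exact Nat.Prime.not_coprime_iff_dvd.mpr ⟨p, hp, hi, hj⟩ h

lemma par (h1 : LOC) (h2 : GOOD) (hd : Dat cls κ s A B) (hc : Cmp cls s A B x y x' y' τ)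
    (c : Fin 3) (q : ℕ) (hq : q.Prime) :
    Even (padicValRat q (w A B c x * w A B c x')) ↔ ¬ q ∣ UU cls τ c := by
  have : Fact q.Prime := ⟨hq⟩
  rw [even_mul_iff q (w_ne_zero hc.hy hc.h c) (w_ne_zero hc.hy' hc.h' c), dvd_UU_iff hq]
  by_cases hs : ∃ l, q ∣ s l
  · obtain ⟨l, hl⟩ := hs
    have hq2 : q ≠ 2 := ne_two_of_dvd hd hl
    have hlc := hd.lc l q hq hl
    obtain ⟨a1, a2, -⟩ := locu h1 A B (cls l) q hq2 hlc x y hc.hy hc.h
    obtain ⟨b1, b2, -⟩ := locu h1 A B (cls l) q hq2 hlc x' y' hc.hy' hc.h'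
    by_cases hcl : cls l = c
    · rw [hcl] at a1 b1
      constructor
      · rintro - ⟨m, hm1, hm2⟩
        have : m = l := uniq hd hq (hm2.trans (hc.dvd m)) hl
        rw [this] at hm1
        exact hm1 hcl
      · intro _
        exact ⟨fun _ => b1, fun _ => a1⟩
    · have e1 := a2 c (c0 cls l) (fun h => hcl h.symm) (c0_ne cls l)
      have e2 := b2 c (c0 cls l) (fun h => hcl h.symm) (c0_ne cls l)
      rw [e1, e2]
      constructor
      · rintro h3 ⟨m, hm1, hm2⟩
        have hml : m = l := uniq hd hq (hm2.trans (hc.dvd m)) hl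
        rw [hml] at hm2
        exact ((hc.mem l q hq).mp hm2).2 h3
      · intro h3
        by_contra h4
        exact h3 ⟨l, hcl, (hc.mem l q hq).mpr ⟨hl, h4⟩⟩
  · push Not at hs
    have hr : ¬ ∃ l, cls l ≠ c ∧ q ∣ τ l := by
      rintro ⟨l, -, hl⟩
      exact hs l (hl.trans (hc.dvd l))
    refine ⟨fun _ => hr, fun _ => ?_⟩
    by_cases hD : (q : ℤ) ∣ 2 * A * B * (A - B)
    · obtain ⟨o2, o1⟩ := hc.out q hq hD hs
      rcases fin3 c with rfl | rfl | rfl
      · rw [third q hc.hy hc.h, third q hc.hy' hc.h', o2, o1]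
      · exact o1
      · exact o2
    · have g1 := goodu h2 A B c q hD x y hc.hy hc.h
      have g2 := goodu h2 A B c q hD x' y' hc.hy' hc.h'
      exact ⟨fun _ => g2, fun _ => g1⟩

lemma pos (hc : Cmp cls s A B x y x' y' τ) (c : Fin 3) : 0 < w A B c x * w A B c x' := by
  have key : ∀ c, (0 < w A B c x ↔ 0 < w A B c x') → 0 < w A B c x * w A B c x' := by
    intro c hi
    rcases lt_or_gt_of_ne (w_ne_zero hc.hy hc.h c) with h1 | h1
    · rcases lt_or_gt_of_ne (w_ne_zero hc.hy' hc.h' c) with h2 | h2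
      · exact mul_pos_of_neg_of_neg h1 h2
      · exact absurd (hi.mpr h2) (not_lt.mpr h1.le)
    · exact mul_pos h1 (hi.mp h1)
  rcases fin3 c with rfl | rfl | rfl
  · have p2 := key 2 hc.sgn2
    have p1 := key 1 hc.sgn1
    have h3 : (w A B 2 x * w A B 2 x') * (w A B 1 x * w A B 1 x') * (w A B 0 x * w A B 0 x')
        = (y * y') ^ 2 := by
      rw [mul_pow, hc.h, hc.h', w_zero, w_one, w_two, w_zero, w_one, w_two]; ring
    have h4 : 0 < (y * y') ^ 2 := by
      have : y * y' ≠ 0 := mul_ne_zero hc.hy hc.hy'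
      positivity
    rw [← h3] at h4
    exact (pos_iff_pos_of_mul_pos h4).mp (mul_pos p2 p1)
  · exact key 1 hc.sgn1
  · exact key 2 hc.sgn2

lemma sqc (h1 : LOC) (h2 : GOOD) (hd : Dat cls κ s A B) (hc : Cmp cls s A B x y x' y' τ)
    (c : Fin 3) : IsSquare (w A B c x * w A B c x' * (UU cls τ c : ℚ)) := by
  have hsq := UU_sqf hd hc.dvd c
  have hU : (UU cls τ c : ℚ) ≠ 0 := by exact_mod_cast hsq.ne_zero
  have hU0 : (0 : ℚ) < (UU cls τ c : ℚ) := lt_of_le_of_ne (Nat.cast_nonneg _) hU.symm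
  apply isSquare_of_even
  · exact mul_pos (pos hc c) hU0
  · intro q hq
    have : Fact q.Prime := ⟨hq⟩
    rw [even_mul_iff q (pos hc c).ne' hU, par h1 h2 hd hc c q hq, val_sqfree _ q hsq]
    split_ifs with h
    · simp [h]
    · simp [h]

/-- squares in a field: cancel a square factor -/
lemma IsSquare.cancel {F : Type*} [Field F] {a b : F} (ha : IsSquare a) (hab : IsSquare (a * b))
    (ha0 : a ≠ 0) : IsSquare b := by
  have h : IsSquare (a * b / a) := hab.div ha
  rwa [mul_div_cancel_left₀ _ ha0] at h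

lemma cond (h1 : LOC) (h2 : GOOD) (hd : Dat cls κ s A B) (hc : Cmp cls s A B x y x' y' τ) :
    Cond cls κ s τ := by
  refine ⟨hc.dvd, fun j p hp hpj => ?_⟩
  have : Fact p.Prime := ⟨hp⟩
  have hp2 : p ≠ 2 := ne_two_of_dvd hd hpj
  have hlc := hd.lc j p hp hpj
  obtain ⟨-, -, a3⟩ := locu h1 A B (cls j) p hp2 hlc x y hc.hy hc.h
  obtain ⟨-, -, b3⟩ := locu h1 A B (cls j) p hp2 hlc x' y' hc.hy' hc.h'
  obtain ⟨a3, a4⟩ := a3 (c0 cls j) (c0_ne cls j)
  obtain ⟨b3, b4⟩ := b3 (c0 cls j) (c0_ne cls j)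
  set c := cls j with hcj
  have hw := w_ne_zero hc.hy hc.h c
  have hw' := w_ne_zero hc.hy' hc.h' c
  have huu : (uu cls τ j : ℤ) = (UU cls τ c : ℤ) := rfl
  have hjac := hd.jac j p hp hpj
  have hbt0 : bt A B c ≠ 0 := by
    intro h0
    rw [← hcj, h0, mul_zero, jacobiSym.zero_left hp.one_lt] at hjac
    exact zero_ne_one hjac
  have hbtq : (bt A B c : ℚ) ≠ 0 := by exact_mod_cast hbt0
  -- the square in Q_p
  have hsq : IsSquare (((w A B c x * w A B c x' * (UU cls τ c : ℚ) : ℚ)) : ℚ_[p]) :=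
    (sqc h1 h2 hd hc c).map (Rat.castHom ℚ_[p])
  have hpU : ¬ p ∣ UU cls τ c := by
    rw [dvd_UU_iff hp]
    rintro ⟨l, hl1, hl2⟩
    have : l = j := uniq hd hp (hl2.trans (hc.dvd l)) hpj
    rw [this] at hl1
    exact hl1 rfl
  by_cases hpτ : p ∣ τ j
  · rw [if_pos hpτ, huu]
    have hne := ((hc.mem j p hp).mp hpτ).2
    -- beta * w * w' is a square
    have hbw : IsSquare (((bt A B c : ℚ) * (w A B c x * w A B c x') : ℚ) : ℚ_[p]) := by
      by_cases he : Even (padicValRat p (w A B (c0 cls j) x))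
      · have he' : ¬ Even (padicValRat p (w A B (c0 cls j) x')) := fun h => hne ⟨fun _ => h, fun _ => he⟩
        have k := (a3 he).mul (b4 he')
        have e : ((bt A B c : ℚ) * (w A B c x * w A B c x') : ℚ) =
          w A B c x * ((bt A B c : ℚ) * w A B c x') := by ring
        rw [e, Rat.cast_mul]
        exact k
      · have he' : Even (padicValRat p (w A B (c0 cls j) x')) := by
          by_contra h
          exact hne ⟨fun h' => absurd h' he, fun h' => absurd h' h⟩
        have k := (a4 he).mul (b3 he')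
        have e : ((bt A B c : ℚ) * (w A B c x * w A B c x') : ℚ) =
          ((bt A B c : ℚ) * w A B c x) * w A B c x' := by ring
        rw [e, Rat.cast_mul]
        exact k
    have hbU : IsSquare (((bt A B c * (UU cls τ c : ℤ) : ℤ) : ℚ) : ℚ_[p]) := by
      apply IsSquare.cancel (a := (((w A B c x * w A B c x') ^ 2 : ℚ) : ℚ_[p]))
      · rw [Rat.cast_pow]; exact IsSquare.sq _
      · have k := hbw.mul hsq
        rw [← Rat.cast_mul] at k ⊢
        have e : (w A B c x * w A B c x') ^ 2 * ((bt A B c * (UU cls τ c : ℤ) : ℤ) : ℚ) =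
          (bt A B c : ℚ) * (w A B c x * w A B c x') * (w A B c x * w A B c x' * (UU cls τ c : ℚ)) := by
          push_cast; ring
        rw [e]; exact k
      · have : ((w A B c x * w A B c x') ^ 2 : ℚ) ≠ 0 := pow_ne_zero 2 (mul_ne_zero hw hw')
        exact_mod_cast this
    have hpb : ¬ (p : ℤ) ∣ bt A B c := by
      intro hdv
      have : jacobiSym (κ j * bt A B c) p = 0 := by
        rw [jacobiSym.mul_left]
        have h0 : jacobiSym (bt A B c) p = 0 := by
          rw [← jacobiSym.legendreSym.to_jacobiSym, legendreSym.eq_zero_iff,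
            ZMod.intCast_zmod_eq_zero_iff_dvd]
          exact hdv
        rw [h0, mul_zero]
      rw [this] at hjac
      exact zero_ne_one hjac
    have hpbU : ¬ (p : ℤ) ∣ bt A B c * (UU cls τ c : ℤ) := by
      intro hdv
      rcases (Nat.prime_iff_prime_int.mp hp).dvd_or_dvd hdv with h | h
      · exact hpb h
      · exact hpU (by exact_mod_cast h)
    have hJ := jac_of_isSquare p _ hpbU hbU
    rw [jacobiSym.mul_left] at hJ hjac ⊢
    have hb2 : jacobiSym (bt A B c) p * jacobiSym (bt A B c) p = 1 := by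
      have h3 : jacobiSym (bt A B c) p ≠ 0 := by
        intro h0; rw [h0, zero_mul] at hJ; exact zero_ne_one hJ
      rcases jacobiSym.trichotomy (bt A B c) p with h | h | h
      · exact absurd h h3
      · rw [h]; rfl
      · rw [h]; rfl
    calc jacobiSym (κ j) p * jacobiSym (UU cls τ c : ℤ) p
        = (jacobiSym (κ j) p * jacobiSym (bt A B c) p) *
          (jacobiSym (bt A B c) p * jacobiSym (UU cls τ c : ℤ) p) := by
          rw [mul_assoc, ← mul_assoc (jacobiSym (bt A B c) p), hb2, one_mul]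
      _ = 1 := by rw [hJ, hjac]; rfl
  · rw [if_neg hpτ, one_mul, huu]
    have hiff : (Even (padicValRat p (w A B (c0 cls j) x)) ↔
        Even (padicValRat p (w A B (c0 cls j) x'))) := by
      by_contra h
      exact hpτ ((hc.mem j p hp).mpr ⟨hpj, h⟩)
    have hww : IsSquare (((w A B c x * w A B c x' : ℚ)) : ℚ_[p]) := by
      by_cases he : Even (padicValRat p (w A B (c0 cls j) x))
      · rw [Rat.cast_mul]
        exact (a3 he).mul (b3 (hiff.mp he))
      · have k := (a4 he).mul (b4 (fun h => he (hiff.mpr h)))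
        rw [← Rat.cast_mul] at k
        apply IsSquare.cancel (a := (((bt A B c : ℚ) ^ 2 : ℚ) : ℚ_[p]))
        · rw [Rat.cast_pow]; exact IsSquare.sq _
        · rw [← Rat.cast_mul]
          have e : (bt A B c : ℚ) ^ 2 * (w A B c x * w A B c x') =
            (bt A B c : ℚ) * w A B c x * ((bt A B c : ℚ) * w A B c x') := by ring
          rw [e]; exact k
        · have : ((bt A B c : ℚ) ^ 2) ≠ 0 := pow_ne_zero 2 hbtq
          exact_mod_cast this
    have hU : IsSquare ((((UU cls τ c : ℤ) : ℤ) : ℚ) : ℚ_[p]) := by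
      apply IsSquare.cancel hww
      · rw [← Rat.cast_mul]
        have e : (w A B c x * w A B c x') * (((UU cls τ c : ℤ) : ℤ) : ℚ) =
          w A B c x * w A B c x' * (UU cls τ c : ℚ) := by push_cast; ring
        rw [e]; exact hsq
      · have : (w A B c x * w A B c x') ≠ 0 := mul_ne_zero hw hw'
        exact_mod_cast this
    exact jac_of_isSquare p _ (fun h => hpU (by exact_mod_cast h)) hU

end

end Pool.Agent.W599.RK
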