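import Mathlib
import Pool.Agent.W262.RK.Stm
import Pool.Agent.W599.RK.Desc2

/-!
# RK-DESC, part 3: counting cosets
-/

namespace Pool.Agent.W599.RK

open Finset Pool.Agent.W262.RK

section

variable {J : Type} [Fintype J] [DecidableEq J]

/-- the points with `y ≠ 0` -/
def X (A B : ℤ) : Type := {q : ℚ × ℚ // q.2 ≠ 0 ∧ q.2 ^ 2 = q.1 * (q.1 - A) * (q.1 - B)}

/-- the outer data take values here -/
abbrev Out (OP : Finset ℕ) : Type := Bool × Bool × ({q // q ∈ OP} → Bool × Bool)

lemma card_out (OP : Finset ℕ) : Fintype.card (Out OP) = 4 ^ (OP.card + 1) := by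
  rw [Fintype.card_prod, Fintype.card_prod, Fintype.card_fun, Fintype.card_prod, Fintype.card_bool,
    Fintype.card_coe, pow_succ]
  ring

open Classical in
/-- the outer data of a point -/
noncomputable def outf (OP : Finset ℕ) (A B : ℤ) (P : X A B) : Out OP :=
  (decide (0 < w A B 2 P.1.1), decide (0 < w A B 1 P.1.1),
    fun q => (decide (Even (padicValRat q.1 (w A B 2 P.1.1))),
      decide (Even (padicValRat q.1 (w A B 1 P.1.1)))))

open Classical in
/-- the divisor data of a pair of points -/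
noncomputable def tau (cls : J → Fin 3) (s : J → ℕ) (A B : ℤ) (P P' : X A B) (j : J) : ℕ :=
  ∏ p ∈ (s j).primeFactors.filter (fun p =>
    ¬ (Even (padicValRat p (w A B (c0 cls j) P.1.1)) ↔
      Even (padicValRat p (w A B (c0 cls j) P'.1.1)))), p

variable {cls : J → Fin 3} {κ : J → ℤ} {s : J → ℕ} {A B : ℤ}

lemma tau_dvd (hd : Dat cls κ s A B) (P P' : X A B) (j : J) : tau cls s A B P P' j ∣ s j := by
  classical
  have h := Nat.prod_primeFactors_of_squarefree (hd.sqf j)
  conv_rhs => rw [← h]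
  exact Finset.prod_dvd_prod_of_subset _ _ _ (Finset.filter_subset _ _)

lemma prime_dvd_tau (hd : Dat cls κ s A B) (P P' : X A B) (j : J) (q : ℕ) (hq : q.Prime) :
    q ∣ tau cls s A B P P' j ↔ (q ∣ s j ∧
      ¬ (Even (padicValRat q (w A B (c0 cls j) P.1.1)) ↔
        Even (padicValRat q (w A B (c0 cls j) P'.1.1)))) := by
  classical
  unfold tau
  rw [Prime.dvd_finsetProd_iff hq.prime]
  constructor
  · rintro ⟨p, hp, hqp⟩
    rw [Finset.mem_filter, Nat.mem_primeFactors] at hp
    have : q = p := (Nat.prime_dvd_prime_iff_eq hq hp.1.1).mp hqp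
    rw [this]
    exact ⟨hp.1.2.1, hp.2⟩
  · rintro ⟨h1, h2⟩
    exact ⟨q, Finset.mem_filter.mpr ⟨Nat.mem_primeFactors.mpr ⟨hq, h1, (hd.sqf j).ne_zero⟩, h2⟩,
      dvd_rfl⟩

lemma cmp_of_out (hd : Dat cls κ s A B) (OP : Finset ℕ)
    (hOP : ∀ q : ℕ, q.Prime → (q : ℤ) ∣ 2 * A * B * (A - B) → (∀ j, ¬ q ∣ s j) → q ∈ OP)
    (P P' : X A B) (ho : outf OP A B P = outf OP A B P') :
    Cmp cls s A B P.1.1 P.1.2 P'.1.1 P'.1.2 (tau cls s A B P P') := by
  have h1 : decide (0 < w A B 2 P.1.1) = decide (0 < w A B 2 P'.1.1) := congrArg Prod.fst ho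
  have h23 := congrArg Prod.snd ho
  have h2 : decide (0 < w A B 1 P.1.1) = decide (0 < w A B 1 P'.1.1) := congrArg Prod.fst h23
  have h3 := congrArg Prod.snd h23
  refine ⟨P.2.1, P.2.2, P'.2.1, P'.2.2, tau_dvd hd P P', prime_dvd_tau hd P P', ?_,
    decide_eq_decide.mp h1, decide_eq_decide.mp h2⟩
  intro q hq hqd hqs
  have h4 := congrFun h3 ⟨q, hOP q hq hqd hqs⟩
  have h5 := congrArg Prod.fst h4
  have h6 := congrArg Prod.snd h4
  simp only [outf] at h5 h6
  exact ⟨decide_eq_decide.mp h5, decide_eq_decide.mp h6⟩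

/-- one is always counted -/
lemma one_le_NN (cls : J → Fin 3) (κ : J → ℤ) (s : J → ℕ) (hs : ∀ j, s j ≠ 0) :
    1 ≤ NN cls κ s := by
  classical
  unfold NN
  rw [Nat.one_le_iff_ne_zero, Finset.card_ne_zero]
  refine ⟨fun _ => 1, Finset.mem_filter.mpr ⟨?_, ?_, ?_⟩⟩
  · rw [Fintype.mem_piFinset]
    intro j
    exact Nat.mem_divisors.mpr ⟨one_dvd _, hs j⟩
  · intro j; exact one_dvd _
  · intro j p hp _
    have h1 : ¬ p ∣ 1 := hp.one_lt.ne' ∘ Nat.dvd_one.mp
    rw [if_neg h1, one_mul]
    unfold uu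
    simp

end

theorem desc_of (h1 : LOC) (h2 : GOOD) (h3 : HALF) (h4 : RKB) : DESC := by
  classical
  intro J _ _ cls κ s A B hA hB hAB hodd hsqf hcop hcl0 hcl1 hcl2
  have hd : Dat cls κ s A B := by
    refine ⟨hodd, hsqf, hcop, fun j p hp hpj => ?_, fun j p hp hpj => ?_⟩
    · rcases fin3 (cls j) with h | h | h
      · obtain ⟨a, b, c, -⟩ := hcl0 j h p hp hpj
        rw [h]; exact ⟨a, b, c⟩
      · obtain ⟨a, b, c, -⟩ := hcl1 j h p hp hpj
        rw [h]; exact ⟨a, b, c⟩
      · obtain ⟨a, b, c, -⟩ := hcl2 j h p hp hpj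
        rw [h]; exact ⟨a, b, c⟩
    · rcases fin3 (cls j) with h | h | h
      · obtain ⟨-, -, -, d⟩ := hcl0 j h p hp hpj
        rw [h, bt_zero]; exact d
      · obtain ⟨-, -, -, d⟩ := hcl1 j h p hp hpj
        rw [h, bt_one]; exact d
      · obtain ⟨-, -, -, d⟩ := hcl2 j h p hp hpj
        rw [h, bt_two]; exact d
  obtain ⟨hfg, hhalf, hns, hcard4⟩ := h3 A B hA hB hAB
  set OP : Finset ℕ := (2 * A * B * (A - B)).natAbs.primeFactors.filter (fun q => ∀ j, ¬ q ∣ s j)
    with hOPdef
  have hD0 : 2 * A * B * (A - B) ≠ 0 :=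
    mul_ne_zero (mul_ne_zero (mul_ne_zero two_ne_zero hA) hB) (sub_ne_zero.mpr hAB)
  have hOP : ∀ q : ℕ, q.Prime → (q : ℤ) ∣ 2 * A * B * (A - B) → (∀ j, ¬ q ∣ s j) → q ∈ OP := by
    intro q hq hqd hqs
    rw [hOPdef, Finset.mem_filter, Nat.mem_primeFactors]
    exact ⟨⟨hq, Int.natCast_dvd.mp hqd, Int.natAbs_ne_zero.mpr hD0⟩, hqs⟩
  set F : Finset (J → ℕ) := (Fintype.piFinset (fun j => (s j).divisors)).filter (Cond cls κ s)
    with hF
  have hFcard : F.card = NN cls κ s := by
    unfold NN
    rw [hF]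
  -- the trivial points
  set T0s : Set (EAB A B).toAffine.Point :=
    {P | P = 0 ∨ ∃ (x : ℚ) (h : (EAB A B).toAffine.Nonsingular x 0),
      P = WeierstrassCurve.Affine.Point.some x 0 h} with hT0s
  have hT0fin : T0s.Finite := by
    have hsub : T0s ⊆ insert 0 ((fun x : ℚ =>
        if h : (EAB A B).toAffine.Nonsingular x 0 then
          WeierstrassCurve.Affine.Point.some x 0 h else 0) '' ({0, (A : ℚ), (B : ℚ)} : Set ℚ)) := by
      rintro P (rfl | ⟨x, h, rfl⟩)
      · exact Set.mem_insert _ _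
      · right
        refine ⟨x, ?_, ?_⟩
        · have h5 := (hns x 0).mp h
          have h6 : x * (x - A) * (x - B) = 0 := by rw [← h5]; norm_num
          rcases mul_eq_zero.mp h6 with h7 | h7
          · rcases mul_eq_zero.mp h7 with h8 | h8
            · left; exact h8
            · right; left; exact sub_eq_zero.mp h8
          · right; right; exact sub_eq_zero.mp h7
        · show (if h : (EAB A B).toAffine.Nonsingular x 0 then
            WeierstrassCurve.Affine.Point.some x 0 h else 0) = _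
          rw [dif_pos h]
    exact ((Set.toFinite _).image _ |>.insert _).subset hsub
  set T0 : Finset (EAB A B).toAffine.Point := hT0fin.toFinset with hT0
  have hT0card : T0.card ≤ 4 := by
    have : T0s.ncard = T0.card := Set.ncard_eq_toFinset_card T0s hT0fin
    rw [← this]; exact hcard4
  -- the other points
  let pt : X A B → (EAB A B).toAffine.Point := fun P =>
    WeierstrassCurve.Affine.Point.some P.1.1 P.1.2 ((hns _ _).mpr P.2.2)
  have hpt : ∀ (x y : ℚ) (h : (EAB A B).toAffine.Nonsingular x y) (hy : y ≠ 0),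
      (WeierstrassCurve.Affine.Point.some x y h : (EAB A B).toAffine.Point) =
        pt ⟨(x, y), hy, (hns x y).mp h⟩ := fun x y h hy => rfl
  have hNN1 : 1 ≤ NN cls κ s := one_le_NN cls κ s (fun j => (hsqf j).ne_zero)
  -- the set of representatives
  obtain ⟨T1, hT1card, hT1⟩ : ∃ T1 : Finset (EAB A B).toAffine.Point,
      T1.card ≤ 4 ^ (OP.card + 1) * NN cls κ s ∧
      ∀ P : X A B, ∃ t ∈ T1, ∃ q : (EAB A B).toAffine.Point, pt P = t + (q + q) := by
    by_cases hX : Nonempty (X A B)
    · let rep : Out OP → X A B := Function.invFun (outf OP A B)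
      have hrep : ∀ P : X A B, outf OP A B (rep (outf OP A B P)) = outf OP A B P := fun P =>
        Function.invFun_eq ⟨P, rfl⟩
      let key : X A B → Out OP × (J → ℕ) := fun P =>
        (outf OP A B P, tau cls s A B P (rep (outf OP A B P)))
      let T1 : Finset (EAB A B).toAffine.Point :=
        ((Finset.univ : Finset (Out OP)) ×ˢ F).image
          (fun k => pt (Function.invFun key k))
      refine ⟨T1, ?_, ?_⟩
      · refine Finset.card_image_le.trans ?_
        rw [Finset.card_product, Finset.card_univ, card_out, hFcard]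
      · intro P
        have hcmp : ∀ Q : X A B, Cmp cls s A B Q.1.1 Q.1.2 (rep (outf OP A B Q)).1.1
            (rep (outf OP A B Q)).1.2 (tau cls s A B Q (rep (outf OP A B Q))) := fun Q =>
          cmp_of_out hd OP hOP Q _ (hrep Q).symm
        have hkeyF : key P ∈ (Finset.univ : Finset (Out OP)) ×ˢ F := by
          rw [Finset.mem_product]
          refine ⟨Finset.mem_univ _, ?_⟩
          rw [hF, Finset.mem_filter, Fintype.mem_piFinset]
          exact ⟨fun j => Nat.mem_divisors.mpr ⟨tau_dvd hd _ _ j, (hsqf j).ne_zero⟩,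
            cond h1 h2 hd (hcmp P)⟩
        set P2 : X A B := Function.invFun key (key P) with hP2
        have hkey2 : key P2 = key P := Function.invFun_eq ⟨P, rfl⟩
        have ho2 : outf OP A B P2 = outf OP A B P := congrArg Prod.fst hkey2
        have ht2 : tau cls s A B P2 (rep (outf OP A B P2)) =
            tau cls s A B P (rep (outf OP A B P)) := congrArg Prod.snd hkey2
        have hc1 := hcmp P
        have hc2 := hcmp P2
        rw [ht2, ho2] at hc2
        have hsq : ∀ c : Fin 3, IsSquare (w A B c P.1.1 * w A B c P2.1.1) := by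
          intro c
          have k1 := sqc h1 h2 hd hc1 c
          have k2 := sqc h1 h2 hd hc2 c
          have hw' := w_ne_zero hc1.hy' hc1.h' c
          have hU : (UU cls (tau cls s A B P (rep (outf OP A B P))) c : ℚ) ≠ 0 := by
            exact_mod_cast (UU_sqf hd hc1.dvd c).ne_zero
          apply IsSquare.cancel (a := (w A B c (rep (outf OP A B P)).1.1 *
            (UU cls (tau cls s A B P (rep (outf OP A B P))) c : ℚ)) ^ 2) (IsSquare.sq _)
          · have k := k1.mul k2
            have e : (w A B c (rep (outf OP A B P)).1.1 *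
                (UU cls (tau cls s A B P (rep (outf OP A B P))) c : ℚ)) ^ 2 *
                (w A B c P.1.1 * w A B c P2.1.1) =
              w A B c P.1.1 * w A B c (rep (outf OP A B P)).1.1 *
                (UU cls (tau cls s A B P (rep (outf OP A B P))) c : ℚ) *
              (w A B c P2.1.1 * w A B c (rep (outf OP A B P)).1.1 *
                (UU cls (tau cls s A B P (rep (outf OP A B P))) c : ℚ)) := by ring
            rw [e]; exact k
          · exact pow_ne_zero 2 (mul_ne_zero hw' hU)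
        obtain ⟨q, hq⟩ := hhalf P.1.1 P.1.2 P2.1.1 P2.1.2 ((hns _ _).mpr P.2.2)
          ((hns _ _).mpr P2.2.2) P.2.1 P2.2.1 (hsq 2) (hsq 1) (hsq 0)
        exact ⟨pt P2, Finset.mem_image.mpr ⟨key P, hkeyF, rfl⟩, q, hq⟩
    · refine ⟨∅, by simp, fun P => absurd ⟨P⟩ hX⟩
  have hfin := h4 (EAB A B).toAffine.Point hfg (4 ^ (OP.card + 2) * NN cls κ s) (T0 ∪ T1)
    (by
      refine (Finset.card_union_le _ _).trans ?_
      have e1 : 4 ^ (OP.card + 2) = 4 * 4 ^ (OP.card + 1) := by rw [pow_succ]; ring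
      have e2 : 4 ≤ 4 ^ (OP.card + 1) := by
        calc 4 = 4 ^ 1 := by norm_num
          _ ≤ 4 ^ (OP.card + 1) := Nat.pow_le_pow_right (by norm_num) (by omega)
      have e3 : 4 ^ (OP.card + 1) ≤ 4 ^ (OP.card + 1) * NN cls κ s :=
        Nat.le_mul_of_pos_right _ hNN1
      rw [e1, mul_assoc]
      omega)
    (by
      intro g
      match g with
      | 0 =>
        refine ⟨0, Finset.mem_union_left _ ?_, 0, by simp⟩
        rw [hT0, Set.Finite.mem_toFinset]
        exact Or.inl rfl
      | WeierstrassCurve.Affine.Point.some x y h =>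
        by_cases hy : y = 0
        · subst hy
          refine ⟨WeierstrassCurve.Affine.Point.some x 0 h, Finset.mem_union_left _ ?_, 0, by simp⟩
          rw [hT0, Set.Finite.mem_toFinset]
          exact Or.inr ⟨x, h, rfl⟩
        · obtain ⟨t, ht, q, hq⟩ := hT1 ⟨(x, y), hy, (hns x y).mp h⟩
          exact ⟨t, Finset.mem_union_right _ ht, q, by rw [hpt x y h hy]; exact hq⟩)
  exact hfin

end Pool.Agent.W599.RK
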